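import Mathlib
import Pool.Agent.LeoT.Stmts
import Pool.Agent.Helper68_LeoC.Uni

/-!
# PAQ: the parameters (class group argument in `k(√-m)`)

MP_5f2860_nt.
-/

set_option autoImplicit false
set_option linter.unusedSectionVars false

open Module NumberField UniqueFactorizationMonoid
open scoped nonZeroDivisors

namespace Pool.Agent.LeoT.H84

/-- The class group argument: `P ≠ C P`, `(u) P ^ o = (v) (C P) ^ o`. -/
lemma core {R : Type} [CommRing R] [IsDedekindDomain R] [Finite (ClassGroup R)]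
    (C : R ≃+* R) (hC : ∀ x, C (C x) = x) (P : Ideal R) [hPp : P.IsPrime] (hP : P ≠ ⊥)
    (hCP : P.map C ≠ P) (L : R) (hL : L ∈ P) (hCL : C L = L) :
    ∃ (u v : R) (o : ℕ) (y : R), u ≠ 0 ∧ v ≠ 0 ∧ L ^ (2 * o) * (v * C u) = (u * C v) * y ∧
      ∀ a b : R, b ≠ 0 → a ^ 3 * (u * C v) ≠ b ^ 3 * (v * C u) := by
  classical
  set Q : Ideal R := P.map C with hQ
  have hQP : Q.map C = P := by
    apply le_antisymm
    · rw [hQ, Ideal.map_le_iff_le_comap, Ideal.map_le_iff_le_comap]
      intro x hx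
      change C (C x) ∈ P
      rwa [hC]
    · intro x hx
      have h1 := Ideal.mem_map_of_mem C (Ideal.mem_map_of_mem C hx)
      rwa [hC] at h1
  have hQp : Q.IsPrime := Ideal.map_isPrime_of_equiv C
  have hQ0 : Q ≠ ⊥ := by
    intro h0
    apply hP
    rw [← hQP, h0, Ideal.map_bot]
  have hPpr : Prime P := Ideal.prime_of_isPrime hP hPp
  have hQpr : Prime Q := Ideal.prime_of_isPrime hQ0 hQp
  have hLQ : L ∈ Q := by
    have := Ideal.mem_map_of_mem C hL
    rwa [hCL] at this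
  set P0 : (Ideal R)⁰ := ⟨P, mem_nonZeroDivisors_of_ne_zero hP⟩ with hP0
  set Q0 : (Ideal R)⁰ := ⟨Q, mem_nonZeroDivisors_of_ne_zero hQ0⟩ with hQ0'
  set g : ClassGroup R := ClassGroup.mk0 P0 / ClassGroup.mk0 Q0 with hg
  set o := orderOf g with ho
  have hopos : 0 < o := orderOf_pos g
  have hgo : ClassGroup.mk0 (P0 ^ o) = ClassGroup.mk0 (Q0 ^ o) := by
    have h1 : g ^ o = 1 := pow_orderOf_eq_one g
    rw [hg, div_pow, div_eq_one, ← map_pow, ← map_pow] at h1
    exact h1
  obtain ⟨u, v, hu, hv, huv⟩ := ClassGroup.mk0_eq_mk0_iff.1 hgo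
  have huv1 : Ideal.span {u} * P ^ o = Ideal.span {v} * Q ^ o := huv
  have huv2 : Ideal.span {C u} * Q ^ o = Ideal.span {C v} * P ^ o := by
    have h1 := congrArg (Ideal.map C) huv1
    rw [Ideal.map_mul, Ideal.map_mul, Ideal.map_pow, Ideal.map_pow, Ideal.map_span,
      Ideal.map_span, Set.image_singleton, Set.image_singleton, hQP, ← hQ] at h1
    exact h1
  have hCu : C u ≠ 0 := by simpa using hu
  have hCv : C v ≠ 0 := by simpa using hv
  have hsp : ∀ x : R, x ≠ 0 → (Ideal.span {x} : Ideal R) ≠ 0 := by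
    intro x hx
    rwa [Ne, Ideal.zero_eq_bot, Ideal.span_singleton_eq_bot]
  -- `L ^ (2 o) v (C u)` lies in `(u C v)`
  have hPQ : IsCoprime P Q := by
    have hPm : P.IsMaximal := hPp.isMaximal hP
    have hQm : Q.IsMaximal := hQp.isMaximal hQ0
    rw [Ideal.isCoprime_iff_sup_eq]
    exact Ideal.IsMaximal.coprime_of_ne hPm hQm (Ne.symm hCP)
  have hLPQ : L ∈ P * Q := by
    rw [Ideal.mul_eq_inf_of_isCoprime hPQ]
    exact ⟨hL, hLQ⟩
  have hmem : L ^ (2 * o) * (v * C u) ∈ Ideal.span {u * C v} := by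
    have h1 : L ^ (2 * o) * (v * C u) ∈ (P * Q) ^ (2 * o) * (Ideal.span {v} * Ideal.span {C u}) :=
      Ideal.mul_mem_mul (Ideal.pow_mem_pow hLPQ _)
        (Ideal.mul_mem_mul (Ideal.mem_span_singleton_self _) (Ideal.mem_span_singleton_self _))
    have h2 : (P * Q) ^ (2 * o) * (Ideal.span {v} * Ideal.span {C u}) =
        (Ideal.span {u} * Ideal.span {C v}) * P ^ (4 * o) := by
      calc (P * Q) ^ (2 * o) * (Ideal.span {v} * Ideal.span {C u}) =
          (Ideal.span {v} * Q ^ o) * (Ideal.span {C u} * Q ^ o) * P ^ (2 * o) := by ring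
        _ = (Ideal.span {u} * P ^ o) * (Ideal.span {C v} * P ^ o) * P ^ (2 * o) := by
            rw [huv1, huv2]
        _ = _ := by ring
    rw [h2, Ideal.span_singleton_mul_span_singleton] at h1
    exact Ideal.mul_le_left h1
  obtain ⟨y, hy⟩ := Ideal.mem_span_singleton'.1 hmem
  refine ⟨u, v, o, y, hu, hv, by rw [← hy, mul_comm], ?_⟩
  intro a b hb hab
  have ha : a ≠ 0 := by
    rintro rfl
    rw [zero_pow (by norm_num), zero_mul] at hab
    exact mul_ne_zero (pow_ne_zero 3 hb) (mul_ne_zero hv hCu) hab.symm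
  have hI : Ideal.span {a} ^ 3 * Q ^ (2 * o) = Ideal.span {b} ^ 3 * P ^ (2 * o) := by
    have h1 : Ideal.span {a} ^ 3 * (Ideal.span {u} * Ideal.span {C v}) =
        Ideal.span {b} ^ 3 * (Ideal.span {v} * Ideal.span {C u}) := by
      rw [Ideal.span_singleton_pow, Ideal.span_singleton_pow,
        Ideal.span_singleton_mul_span_singleton, Ideal.span_singleton_mul_span_singleton,
        Ideal.span_singleton_mul_span_singleton, Ideal.span_singleton_mul_span_singleton, hab]
    have h2 : Ideal.span {v} * Ideal.span {C u} ≠ 0 := mul_ne_zero (hsp v hv) (hsp _ hCu)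
    apply mul_left_cancel₀ h2
    calc Ideal.span {v} * Ideal.span {C u} * (Ideal.span {a} ^ 3 * Q ^ (2 * o)) =
        Ideal.span {a} ^ 3 * ((Ideal.span {v} * Q ^ o) * (Ideal.span {C u} * Q ^ o)) := by ring
      _ = Ideal.span {a} ^ 3 * ((Ideal.span {u} * P ^ o) * (Ideal.span {C v} * P ^ o)) := by
          rw [huv1, huv2]
      _ = Ideal.span {a} ^ 3 * (Ideal.span {u} * Ideal.span {C v}) * P ^ (2 * o) := by ring
      _ = _ := by rw [h1]; ring
  have hP3 : 3 ∣ o := by
    have h1 : (normalizedFactors (Ideal.span {a} ^ 3 * Q ^ (2 * o))).count P =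
        (normalizedFactors (Ideal.span {b} ^ 3 * P ^ (2 * o))).count P := by rw [hI]
    rw [normalizedFactors_mul (pow_ne_zero 3 (hsp a ha)) (pow_ne_zero _ hQ0),
      normalizedFactors_mul (pow_ne_zero 3 (hsp b hb)) (pow_ne_zero _ hP), normalizedFactors_pow,
      normalizedFactors_pow, normalizedFactors_pow, normalizedFactors_pow,
      normalizedFactors_irreducible hQpr.irreducible,
      normalizedFactors_irreducible hPpr.irreducible, normalize_eq, normalize_eq,
      Multiset.count_add, Multiset.count_add, Multiset.count_nsmul, Multiset.count_nsmul,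
      Multiset.count_nsmul, Multiset.count_nsmul, Multiset.count_singleton_self,
      Multiset.count_singleton, if_neg (Ne.symm hCP)] at h1
    omega
  obtain ⟨o1, ho1⟩ := hP3
  have hI3 : (Ideal.span {a} * Q ^ (2 * o1)) ^ 3 = (Ideal.span {b} * P ^ (2 * o1)) ^ 3 := by
    have h1 : 2 * o1 * 3 = 2 * o := by omega
    rw [mul_pow, mul_pow, ← pow_mul, ← pow_mul, h1, hI]
  have hI1 : Ideal.span {a} * Q ^ (2 * o1) = Ideal.span {b} * P ^ (2 * o1) := by
    apply dvd_antisymm
    · rw [← pow_dvd_pow_iff_dvd (n := 3) (by norm_num), hI3]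
    · rw [← pow_dvd_pow_iff_dvd (n := 3) (by norm_num), hI3]
  have hcl : ClassGroup.mk0 (Q0 ^ (2 * o1)) = ClassGroup.mk0 (P0 ^ (2 * o1)) :=
    ClassGroup.mk0_eq_mk0_iff.2 ⟨a, b, ha, hb, hI1⟩
  have hg1 : g ^ (2 * o1) = 1 := by
    rw [hg, div_pow, div_eq_one, ← map_pow, ← map_pow, hcl]
  have h2 : o ∣ 2 * o1 := orderOf_dvd_of_pow_eq_one hg1
  have h3 := Nat.le_of_dvd (by omega) h2
  omega

/-- **PAQ**. -/
theorem paq : PaqStmt := by
  intro k _ _ m l q x hl hl3 hlq hxq hxm hm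
  -- the field
  have hsq : ¬ IsSquare (-(m : k)) := by
    rintro ⟨y, hy⟩
    exact hm y (by rw [pow_two, ← hy])
  obtain ⟨F, _, _, _, r, h2, hr⟩ := Pool.Agent.LEO4.H59.exists_quad k _ hsq
  have hfd : FiniteDimensional k F := FiniteDimensional.of_finrank_pos (by omega)
  have hrk : ∀ x : k, algebraMap k F x ≠ r := by
    intro x hx
    apply hm x
    apply (algebraMap k F).injective
    rw [map_pow, hx, hr]
  have hm0 : (m : k) ≠ 0 := by
    intro h0
    apply hm 0
    rw [h0]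
    ring
  -- the conjugation
  obtain ⟨f, hf⟩ := Pool.Agent.LeoC.H68.quad_lift (E := F) h2 hr (fun x hx => hm x hx) (r' := -r)
    (by rw [neg_sq, hr])
  have hff : ∀ x : F, f (f x) = x := by
    intro x
    obtain ⟨a, b, rfl⟩ := Pool.Agent.LeoK.H2.quad_span' h2 hrk x
    simp [hf]
  set e : F ≃ₐ[k] F := AlgEquiv.ofAlgHom f f (AlgHom.ext hff) (AlgHom.ext hff) with he
  set C : 𝓞 F ≃+* 𝓞 F := RingOfIntegers.mapRingEquiv e.toRingEquiv with hCdef
  have hCf : ∀ y : 𝓞 F, ((C y : 𝓞 F) : F) = f (y : F) := fun y => rfl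
  have hC : ∀ y, C (C y) = y := fun y => RingOfIntegers.ext (by rw [hCf, hCf, hff])
  have hrint : IsIntegral ℤ r := by
    have h3 : IsIntegral ℤ (r ^ 2) := by
      rw [hr]
      exact ((RingOfIntegers.isIntegral_coe m).neg).map (algebraMap k F).toIntAlgHom
    exact h3.of_pow (by norm_num)
  obtain ⟨ρ, hρ⟩ : ∃ ρ : 𝓞 F, (ρ : F) = r := ⟨⟨r, hrint⟩, rfl⟩
  have hCρ : C ρ = -ρ := RingOfIntegers.ext (by rw [hCf, hρ, hf, ← hρ]; rfl)
  set X : 𝓞 F := algebraMap (𝓞 k) (𝓞 F) x with hX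
  have hXc : (X : F) = algebraMap k F (x : k) := rfl
  have hCX : C X = X := RingOfIntegers.ext (by rw [hCf, hXc, f.commutes])
  -- the prime
  have hqm : q.asIdeal.IsMaximal := q.isPrime.isMaximal q.ne_bot
  obtain ⟨P, hPm, hPo⟩ := Ideal.exists_maximal_ideal_liesOver_of_isIntegral q.asIdeal (S := 𝓞 F)
  have hPb : P ≠ ⊥ := Ideal.ne_bot_of_liesOver_of_ne_bot q.ne_bot P
  have hPp : P.IsPrime := hPm.isPrime
  have hover : ∀ y : 𝓞 k, algebraMap (𝓞 k) (𝓞 F) y ∈ P ↔ y ∈ q.asIdeal := by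
    intro y
    rw [hPo.over, Ideal.mem_under]
  have hlP : (l : 𝓞 F) ∈ P := by
    rw [← map_natCast (algebraMap (𝓞 k) (𝓞 F)), hover]
    exact hlq
  have hkey : (ρ - X) * (ρ + X) ∈ P := by
    have h3 : (ρ - X) * (ρ + X) = -algebraMap (𝓞 k) (𝓞 F) (x ^ 2 + m) := by
      apply RingOfIntegers.ext
      change ((ρ : F) - (X : F)) * ((ρ : F) + (X : F)) = -(algebraMap k F ((x : k) ^ 2 + (m : k)))
      rw [hρ, hXc, map_add, map_pow]
      rw [map_neg] at hr
      linear_combination hr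
    rw [h3, P.neg_mem_iff, hover]
    exact hxm
  have h2q : (2 : 𝓞 k) ∉ q.asIdeal := by
    intro h3
    obtain ⟨c, hc⟩ := hl.odd_of_ne_two (by omega)
    apply (Ideal.ne_top_iff_one _).1 q.isPrime.ne_top
    have h4 : (1 : 𝓞 k) = (l : 𝓞 k) - c * 2 := by
      rw [hc]
      push_cast
      ring
    rw [h4]
    exact q.asIdeal.sub_mem hlq (q.asIdeal.mul_mem_left _ h3)
  have hCP : P.map C ≠ P := by
    intro h
    have hCm : ∀ y ∈ P, C y ∈ P := by
      intro y hy
      have h3 := Ideal.mem_map_of_mem C hy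
      rwa [h] at h3
    have h2X : 2 * X ∈ P := by
      rcases hPp.mem_or_mem hkey with h1 | h1
      · have h3 := hCm _ h1
        rw [map_sub, hCρ, hCX] at h3
        have h4 := P.neg_mem (P.add_mem h1 h3)
        have h5 : -(ρ - X + (-ρ - X)) = 2 * X := by ring
        rwa [h5] at h4
      · have h3 := hCm _ h1
        rw [map_add, hCρ, hCX] at h3
        have h4 := P.add_mem h1 h3
        have h5 : ρ + X + (-ρ + X) = 2 * X := by ring
        rwa [h5] at h4
    rcases hPp.mem_or_mem h2X with h1 | h1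
    · apply h2q
      rw [← hover, map_ofNat]
      exact h1
    · exact hxq ((hover x).1 h1)
  obtain ⟨u, v, o, y, hu, hv, hy, hcube⟩ := core C hC P hPb hCP (l : 𝓞 F) hlP (map_natCast C l)
  have hu0 : (u : F) ≠ 0 := by simpa using hu
  have hv0 : (v : F) ≠ 0 := by simpa using hv
  have hfu0 : f (u : F) ≠ 0 := by rwa [Ne, map_eq_zero]
  have hfv0 : f (v : F) ≠ 0 := by rwa [Ne, map_eq_zero]
  have hyF : (l : F) ^ (2 * o) * ((v : F) * f (u : F)) = ((u : F) * f (v : F)) * (y : F) := by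
    have h3 := congrArg (fun w : 𝓞 F => (w : F)) hy
    simp only [map_mul, map_pow, map_natCast, hCf] at h3
    exact h3
  obtain ⟨z, hz⟩ : ∃ z : F, z = (v : F) * f (u : F) / ((u : F) * f (v : F)) := ⟨_, rfl⟩
  have hz1 : z * f z = 1 := by
    rw [hz]
    simp only [map_div₀, map_mul, hff]
    field_simp
  have hzl : (l : F) ^ (2 * o) * z = (y : F) := by
    rw [hz, ← mul_div_assoc, hyF, mul_div_cancel_left₀ _ (mul_ne_zero hu0 hfv0)]
  have hz3 : ∀ w : F, w ^ 3 ≠ z := by
    intro w hw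
    obtain ⟨a, b, hb, hab⟩ := IsFractionRing.div_surjective (A := 𝓞 F) w
    have hb0 : b ≠ 0 := nonZeroDivisors.ne_zero hb
    have hb1 : (b : F) ≠ 0 := by simpa using hb0
    apply hcube a b hb0
    apply RingOfIntegers.ext
    change (a : F) ^ 3 * ((u : F) * f (v : F)) = (b : F) ^ 3 * ((v : F) * f (u : F))
    rw [← hab, div_pow, hz, div_eq_div_iff (pow_ne_zero 3 hb1) (mul_ne_zero hu0 hfv0)] at hw
    rw [hw, mul_comm]
  obtain ⟨a, b, hab⟩ := Pool.Agent.LeoK.H2.quad_span' h2 hrk z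
  have hrr : r ^ 2 = -algebraMap k F (m : k) := by rw [hr, map_neg]
  have h1 : a ^ 2 + (m : k) * b ^ 2 = 1 := by
    apply (algebraMap k F).injective
    rw [map_one, ← hz1, hab]
    simp only [map_add, map_mul, map_pow, AlgHom.commutes, hf]
    linear_combination (algebraMap k F b) ^ 2 * hrr
  have htint : IsIntegral ℤ ((l : k) ^ (2 * o) * (2 * a)) := by
    have h3 : algebraMap k F ((l : k) ^ (2 * o) * (2 * a)) = (y : F) + f (y : F) := by
      rw [← hzl, hab]
      simp only [map_add, map_mul, map_pow, map_natCast, map_ofNat, AlgHom.commutes, hf]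
      ring
    have h4 : IsIntegral ℤ (algebraMap k F ((l : k) ^ (2 * o) * (2 * a))) := by
      rw [h3]
      exact (RingOfIntegers.isIntegral_coe y).add
        ((RingOfIntegers.isIntegral_coe y).map (f : F →+* F).toIntAlgHom)
    exact (isIntegral_algebraMap_iff (algebraMap k F).injective).1 h4
  have hb0 : b ≠ 0 := by
    rintro rfl
    rw [map_zero, zero_mul, add_zero] at hab
    have h3 : (a - 1) * (a + 1) = 0 := by linear_combination h1
    rcases mul_eq_zero.1 h3 with h4 | h4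
    · apply hz3 1
      rw [hab, sub_eq_zero.1 h4, map_one, one_pow]
    · apply hz3 (-1)
      rw [hab, eq_neg_of_add_eq_zero_left h4, map_neg, map_one]
      ring
  refine ⟨2 * a, 2 * b, 2 * o, htint, ?_, mul_ne_zero two_ne_zero hb0, ?_⟩
  · linear_combination 4 * h1
  · intro x₀ hx₀'
    have h3 : x₀ ^ 2 - 1 ≠ 0 := by
      intro h3
      have h4 : (2 * a) ^ 2 - 4 = (x₀ ^ 2 - 4) * (x₀ ^ 2 - 1) ^ 2 := by
        rw [← hx₀']; ring
      rw [h3] at h4
      have h5 : (m : k) * b ^ 2 = 0 := by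
        have : (4 : k) * ((m : k) * b ^ 2) = 0 := by linear_combination 4 * h1 - h4
        exact (mul_eq_zero.1 this).resolve_left (by norm_num)
      rcases mul_eq_zero.1 h5 with h6 | h6
      · exact hm0 h6
      · exact hb0 (pow_eq_zero_iff two_ne_zero |>.1 h6)
    have h4 : (x₀ ^ 2 - 4) * (x₀ ^ 2 - 1) ^ 2 = -(4 * ((m : k) * b ^ 2)) := by
      have : (2 * a) ^ 2 - 4 = (x₀ ^ 2 - 4) * (x₀ ^ 2 - 1) ^ 2 := by
        rw [← hx₀']; ring
      rw [← this]
      linear_combination 4 * h1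
    apply hz3 ((algebraMap k F x₀ + algebraMap k F (2 * b / (x₀ ^ 2 - 1)) * r) / 2)
    have h5 : algebraMap k F (2 * b / (x₀ ^ 2 - 1)) * r * algebraMap k F (x₀ ^ 2 - 1) =
        algebraMap k F (2 * b) * r := by
      rw [mul_right_comm, ← map_mul, div_mul_cancel₀ _ h3]
    set δ := algebraMap k F (2 * b / (x₀ ^ 2 - 1)) * r with hδ
    have h6 : δ ^ 2 = algebraMap k F (x₀ ^ 2 - 4) := by
      have h7 : (2 * b / (x₀ ^ 2 - 1)) ^ 2 * (-(m : k)) = x₀ ^ 2 - 4 := by
        rw [div_pow, div_mul_eq_mul_div, div_eq_iff (pow_ne_zero 2 h3), h4]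
        ring
      rw [hδ, mul_pow, hr, ← map_pow, ← map_mul, h7]
    rw [hab]
    have h7 := congrArg (algebraMap k F) hx₀'
    simp only [map_sub, map_mul, map_pow, map_ofNat, map_one] at h5 h6 h7
    have h8 : (2 : F) ≠ 0 := by
      have : (2 : F) = algebraMap k F 2 := (map_ofNat _ 2).symm
      rw [this, Ne, map_eq_zero]
      norm_num
    have h9 : (8 : F) * ((algebraMap k F x₀ + δ) / 2) ^ 3 =
        8 * (algebraMap k F a + algebraMap k F b * r) := by
      rw [div_pow]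
      have : (8 : F) * ((algebraMap k F x₀ + δ) ^ 3 / 2 ^ 3) = (algebraMap k F x₀ + δ) ^ 3 := by
        field_simp
        ring
      rw [this]
      linear_combination (3 * algebraMap k F x₀ + δ) * h6 + 4 * h7 + 4 * h5
    have h10 : (8 : F) ≠ 0 := by
      rw [show (8 : F) = 2 * 2 * 2 by norm_num]
      exact mul_ne_zero (mul_ne_zero h8 h8) h8
    exact mul_left_cancel₀ h10 h9

end Pool.Agent.LeoT.H84
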